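import Pool.Agent.N328.CD.Defs

/-!
# CD/RET: the length of the cycle through a point of a random lift
-/

set_option autoImplicit false

namespace Pool.Agent.N878.CD

open Finset Pool.Agent.H160R2.HF Pool.Agent.N328.LF Pool.Agent.N328.CD
open Pool.Agent.H185C (Near Conn IsPerm)

section perm

variable {α : Type} [Fintype α] [DecidableEq α]

lemma mem_circ (π : Equiv.Perm α) (x y : α) : y ∈ circ π x ↔ π.SameCycle x y := by
  unfold circ
  simp

lemma circ_eq (π : Equiv.Perm α) (x : α) :
    circ π x = (range (Function.minimalPeriod π x)).image (fun t => (π ^ t) x) := by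
  have hper : 0 < Function.minimalPeriod π x := by
    apply Function.minimalPeriod_pos_of_mem_periodicPts
    refine ⟨orderOf π, orderOf_pos π, ?_⟩
    show (π : α → α)^[orderOf π] x = x
    rw [← Equiv.Perm.coe_pow, pow_orderOf_eq_one]
    rfl
  ext y
  rw [mem_circ, mem_image]
  constructor
  · rintro ⟨n, hn⟩
    -- a natural exponent
    obtain ⟨m, hm⟩ : ∃ m : ℕ, (π ^ m) x = y := by
      have hfin : IsOfFinOrder π := isOfFinOrder_of_finite π
      have h1 : (π ^ n) ∈ Subgroup.zpowers π := ⟨n, rfl⟩
      rw [← hfin.mem_powers_iff_mem_zpowers] at h1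
      obtain ⟨m, hm⟩ := h1
      refine ⟨m, ?_⟩
      have hm' : π ^ m = π ^ n := hm
      rw [hm', hn]
    refine ⟨m % Function.minimalPeriod π x, mem_range.2 (Nat.mod_lt _ hper), ?_⟩
    rw [← hm, Equiv.Perm.coe_pow, Equiv.Perm.coe_pow]
    exact Function.iterate_mod_minimalPeriod_eq
  · rintro ⟨t, -, rfl⟩
    exact ⟨t, by simp⟩

lemma card_circ (π : Equiv.Perm α) (x : α) :
    (circ π x).card = Function.minimalPeriod π x := by
  rw [circ_eq, card_image_of_injOn, card_range]
  intro a ha b hb hab
  rw [coe_range, Set.mem_Iio] at ha hb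
  simp only [Equiv.Perm.coe_pow] at hab
  exact Function.iterate_injOn_Iio_minimalPeriod ha hb hab

lemma iter (π : Equiv.Perm α) (x y : α) (k : ℕ) (hk : (circ π x).card = k)
    (hy : y ∉ circ π x) : ((Equiv.swap x y * π) ^ k) x = y := by
  have hk' : Function.minimalPeriod π x = k := by rw [← hk, card_circ]
  have hk0 : 0 < k := by
    rw [← hk]
    exact card_pos.2 ⟨x, (mem_circ π x x).2 (Equiv.Perm.SameCycle.refl π x)⟩
  have hyt : ∀ t : ℕ, (π ^ t) x ≠ y := by
    intro t ht
    apply hy
    rw [mem_circ]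
    exact ⟨t, by simpa using ht⟩
  have key : ∀ t : ℕ, t < k → ((Equiv.swap x y * π) ^ t) x = (π ^ t) x := by
    intro t
    induction t with
    | zero => intro _; rfl
    | succ t ih =>
      intro ht
      rw [pow_succ', Equiv.Perm.mul_apply, ih (by omega), Equiv.Perm.mul_apply,
        ← Equiv.Perm.mul_apply π, ← pow_succ']
      apply Equiv.swap_apply_of_ne_of_ne
      · intro h
        have h1 : Function.IsPeriodicPt π (t + 1) x := by
          show (π : α → α)^[t + 1] x = x
          rw [← Equiv.Perm.coe_pow]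
          exact h
        have := Function.IsPeriodicPt.minimalPeriod_le (Nat.succ_pos t) h1
        omega
      · exact hyt _
  obtain ⟨m, rfl⟩ : ∃ m, k = m + 1 := ⟨k - 1, by omega⟩
  rw [pow_succ', Equiv.Perm.mul_apply, key m (by omega), Equiv.Perm.mul_apply,
    ← Equiv.Perm.mul_apply π, ← pow_succ']
  have hx : (π ^ (m + 1)) x = x := by
    have := Function.isPeriodicPt_minimalPeriod π x
    rw [hk'] at this
    rw [Equiv.Perm.coe_pow]
    exact this
  rw [hx, Equiv.swap_apply_left]

end perm

variable {V E : Type} [Fintype V] [Fintype E] [DecidableEq V] [DecidableEq E]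

/-- the permutations `p` with the permutation over `ε w` multiplied by `τ` -/
def chg (B : OrGraph V E) (s : Equiv.Perm V) (ε : V → E) {N : ℕ} (w : V)
    (p : E → Equiv.Perm (Fin N)) (τ : Equiv.Perm (Fin N)) : E → Equiv.Perm (Fin N) :=
  Function.update p (ε w)
    (if B.t (ε w) = w ∧ B.h (ε w) = s w then τ * p (ε w) else p (ε w) * τ⁻¹)

lemma chg_chg (B : OrGraph V E) (s : Equiv.Perm V) (ε : V → E) {N : ℕ} (w : V)
    (p : E → Equiv.Perm (Fin N)) (τ : Equiv.Perm (Fin N)) :
    chg B s ε w (chg B s ε w p τ) τ⁻¹ = p := by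
  unfold chg
  rw [Function.update_idem, Function.update_self]
  split_ifs with h
  · rw [inv_mul_cancel_left, Function.update_eq_self]
  · rw [inv_inv, inv_mul_cancel_right, Function.update_eq_self]

lemma sg_chg (B : OrGraph V E) (s : Equiv.Perm V) (ε : V → E) {N : ℕ} (w : V)
    (p : E → Equiv.Perm (Fin N)) (τ : Equiv.Perm (Fin N)) :
    sg B s ε (chg B s ε w p τ) w = τ * sg B s ε p w := by
  unfold sg chg
  rw [Function.update_self]
  split_ifs with h
  · rfl
  · rw [mul_inv_rev, inv_inv]

lemma sg_chg_ne (B : OrGraph V E) (s : Equiv.Perm V) (ε : V → E) (hε : Function.Injective ε)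
    {N : ℕ} (w u : V) (hu : u ≠ w) (p : E → Equiv.Perm (Fin N)) (τ : Equiv.Perm (Fin N)) :
    sg B s ε (chg B s ε w p τ) u = sg B s ε p u := by
  have h : ε u ≠ ε w := fun h => hu (hε h)
  unfold sg chg
  rw [Function.update_of_ne h]

lemma lperm_chg (B : OrGraph V E) (s : Equiv.Perm V) (ε : V → E) (hε : Function.Injective ε)
    {N : ℕ} (p : E → Equiv.Perm (Fin N)) (v : V) (i j : Fin N) :
    lperm B s ε (chg B s ε (s.symm v) p (Equiv.swap i j)) =
      Equiv.swap (v, i) (v, j) * lperm B s ε p := by
  ext1 z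
  obtain ⟨u, a⟩ := z
  rw [Equiv.Perm.mul_apply]
  show (s u, sg B s ε (chg B s ε (s.symm v) p (Equiv.swap i j)) u a) =
    Equiv.swap (v, i) (v, j) (s u, sg B s ε p u a)
  by_cases hu : u = s.symm v
  · subst hu
    rw [sg_chg, Equiv.apply_symm_apply, Equiv.Perm.mul_apply]
    generalize sg B s ε p (s.symm v) a = b
    rw [Equiv.swap_apply_def, Equiv.swap_apply_def]
    split_ifs <;> simp_all
  · rw [sg_chg_ne B s ε hε _ _ hu]
    have hne : s u ≠ v := fun h => hu (by rw [← h, Equiv.symm_apply_apply])
    rw [Equiv.swap_apply_of_ne_of_ne]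
    · intro h
      exact hne (congrArg Prod.fst h)
    · intro h
      exact hne (congrArg Prod.fst h)

/-- CD/RET: the length of the cycle through a given point. -/
theorem ret (B : OrGraph V E) (F : Finset E) (s : Equiv.Perm V) (ε : V → E)
    (hs : IsPerm B F s ε) (N : ℕ) (x : V × Fin N) (k : ℕ) :
    {p : E → Equiv.Perm (Fin N) | (circ (lperm B s ε p) x).card = k}.ncard * (N - k) ≤
      N.factorial ^ Fintype.card E := by
  classical
  obtain ⟨v, i⟩ := x
  have hε : Function.Injective ε := hs.1
  set A : Finset (E → Equiv.Perm (Fin N)) :=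
    univ.filter fun p => (circ (lperm B s ε p) (v, i)).card = k with hA
  have hAn : {p : E → Equiv.Perm (Fin N) | (circ (lperm B s ε p) (v, i)).card = k}.ncard =
      A.card := by
    rw [← Set.ncard_coe_finset]
    congr 1
    ext p
    simp [hA]
  rw [hAn]
  set J : (E → Equiv.Perm (Fin N)) → Finset (Fin N) :=
    fun p => univ.filter fun j => (v, j) ∉ circ (lperm B s ε p) (v, i) with hJ
  have hJc : ∀ p ∈ A, N - k ≤ (J p).card := by
    intro p hp
    rw [hA, mem_filter] at hp
    have h1 : (univ.filter fun j : Fin N => (v, j) ∈ circ (lperm B s ε p) (v, i)).card ≤ k := by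
      rw [← hp.2]
      refine card_le_card_of_injOn (fun j => (v, j)) ?_ ?_
      · intro j hj
        rw [mem_coe, mem_filter] at hj
        exact hj.2
      · intro a _ b _ hab
        exact (Prod.mk.inj hab).2
    have h2 := card_filter_add_card_filter_not (s := (univ : Finset (Fin N)))
      (fun j : Fin N => (v, j) ∈ circ (lperm B s ε p) (v, i))
    rw [card_univ, Fintype.card_fin] at h2
    show N - k ≤ (univ.filter fun j => (v, j) ∉ circ (lperm B s ε p) (v, i)).card
    omega
  calc A.card * (N - k) = ∑ _p ∈ A, (N - k) := by rw [sum_const, smul_eq_mul]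
    _ ≤ ∑ p ∈ A, (J p).card := sum_le_sum hJc
    _ = (A.sigma J).card := (card_sigma _ _).symm
    _ ≤ (univ : Finset (E → Equiv.Perm (Fin N))).card := by
      refine card_le_card_of_injOn
        (fun q => chg B s ε (s.symm v) q.1 (Equiv.swap i q.2)) (fun _ _ => mem_coe.2 (mem_univ _)) ?_
      rintro ⟨p, j⟩ hp ⟨q, l⟩ hq heq
      rw [mem_coe, mem_sigma, hA, hJ, mem_filter, mem_filter] at hp hq
      simp only at heq hp hq
      have h1 := iter (lperm B s ε p) (v, i) (v, j) k hp.1.2 hp.2.2
      have h2 := iter (lperm B s ε q) (v, i) (v, l) k hq.1.2 hq.2.2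
      rw [← lperm_chg B s ε hε] at h1 h2
      rw [heq, h2] at h1
      have hjl : l = j := (Prod.mk.inj h1).2
      subst hjl
      have h3 := chg_chg B s ε (s.symm v) p (Equiv.swap i l)
      rw [heq, chg_chg] at h3
      rw [h3]
    _ = N.factorial ^ Fintype.card E := by
      rw [card_univ, Fintype.card_fun, Fintype.card_perm, Fintype.card_fin]

end Pool.Agent.N878.CD
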